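import Mathlib
import Pool.Agent.KS7_39.S20.Build

set_option autoImplicit false

namespace Pool.Agent.Results.MP_2001a4_an.ResiduallyFiniteDimensional

open Filter Topology Finset Module Pool.Agent.H.MP_2001a4_an Pool.Agent.KS7_39.S20

/-- `A` is AF: the closure of an increasing union of finite dimensional C*-subalgebras. -/
def IsAF (A : Type) [NonUnitalCStarAlgebra A] : Prop :=
  ∃ S : ℕ → NonUnitalStarSubalgebra ℂ A, Monotone S ∧
    (∀ n, FiniteDimensional ℂ (Submodule.span ℂ (S n : Set A))) ∧ Dense (⋃ n, (S n : Set A))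

/-- `A` has no nonzero unital quotient. -/
def HasNoUnitalQuotient (A : Type) [NonUnitalCStarAlgebra A] : Prop :=
  ∀ (D : Type) [CStarAlgebra D], Nontrivial D → ∀ φ : A →⋆ₙₐ[ℂ] D, ¬ Function.Surjective φ

/-- `C` is the closure of the union of an increasing sequence of closed unital *-subalgebras `T n`,
which have unital *-homomorphisms `ρ n` to nonzero finite dimensional C*-algebras `F n` such that
`‖ρ l c‖` tends to `‖c‖` for each `c` in the union (`‖ρ l c‖ ≤ ‖c‖` is automatic). -/
def IsLocallyRFD (C : Type) [CStarAlgebra C] : Prop :=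
  ∃ (T : ℕ → StarSubalgebra ℂ C) (F : ℕ → Type) (_ : ∀ n, CStarAlgebra (F n))
    (ρ : ∀ n, T n →⋆ₐ[ℂ] F n), Monotone T ∧ (∀ n, IsClosed (T n : Set C)) ∧
    Dense (⋃ n, (T n : Set C)) ∧ (∀ n, FiniteDimensional ℂ (F n)) ∧ (∀ n, Nontrivial (F n)) ∧
    ∀ k, ∀ c ∈ T k, ∀ ε > 0, ∀ᶠ l in atTop, ∀ h : c ∈ T l, ‖c‖ - ε < ‖ρ l ⟨c, h⟩‖

/-- `C` has a separating sequence of unital *-homomorphisms to nonzero finite dimensional
C*-algebras (for separable `C`: `C` is residually finite dimensional). -/
def IsRFD (C : Type) [CStarAlgebra C] : Prop :=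
  ∃ (G : ℕ → Type) (_ : ∀ n, CStarAlgebra (G n)) (σ : ∀ n, C →⋆ₐ[ℂ] G n),
    (∀ n, FiniteDimensional ℂ (G n)) ∧ (∀ n, Nontrivial (G n)) ∧ ∀ c, (∀ n, σ n c = 0) → c = 0

/-- There is a stenotic unital extension `0 → A → B → C → 0`. -/
def HasStenoticUnitalExtension (A : Type) [NonUnitalCStarAlgebra A] (C : Type) [CStarAlgebra C] :
    Prop :=
  ∃ (B : Type) (_ : CStarAlgebra B) (ι : A →⋆ₙₐ[ℂ] B) (π : B →⋆ₐ[ℂ] C),
    Function.Injective ι ∧ Function.Surjective π ∧ Set.range ι = {b : B | π b = 0} ∧
    ∀ I : TwoSidedIdeal B, IsClosed (I : Set B) →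
      Set.range ι ⊆ (I : Set B) ∨ (I : Set B) ⊆ Set.range ι

lemma af_locallyRFD {C : Type} [CStarAlgebra C] [Nontrivial C] (hC : IsAF C) : IsLocallyRFD C := by
  obtain ⟨R, r1, r2, r3⟩ := hC
  let T : ℕ → StarSubalgebra ℂ C := fun n => StarAlgebra.adjoin ℂ (R n)
  have fd : ∀ n, FiniteDimensional ℂ (T n).toSubalgebra.toSubmodule := fun n => by
    have := r2 n
    rw [show Submodule.span ℂ (R n : Set C) = (R n).toSubmodule from
      Submodule.span_eq (R n).toSubmodule] at this
    rw [StarAlgebra.adjoin_nonUnitalStarSubalgebra_eq_span]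
    infer_instance
  have fd' : ∀ n, FiniteDimensional ℂ (T n) := fd
  have cl : ∀ n, IsClosed (T n : Set C) := fun n =>
    have := fd n
    (T n).toSubalgebra.toSubmodule.closed_of_finiteDimensional
  refine ⟨T, fun n => T n, fun n => inferInstance, fun n => StarAlgHom.id ℂ (T n),
    fun a b e => StarAlgebra.adjoin_mono (r1 e), cl,
    r3.mono (Set.iUnion_mono fun n => StarAlgebra.subset_adjoin ℂ _), fd', fun n => inferInstance,
    fun k c hc ε hε => Eventually.of_forall fun l h => ?_⟩
  change ‖c‖ - ε < ‖c‖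
  linarith

lemma rfd_locallyRFD {C : Type} [CStarAlgebra C] (hC : IsRFD C) : IsLocallyRFD C := by
  obtain ⟨G, i1, σ, i2, i3, hσ⟩ := hC
  have hle : ∀ n c, ‖σ n c‖ ≤ ‖c‖ := fun n c => NonUnitalStarAlgHom.norm_apply_le (σ n) c
  -- the product representation is isometric
  have hmem : ∀ c, Memℓp (fun n => σ n c) ⊤ := fun c =>
    memℓp_infty ⟨‖c‖, by rintro _ ⟨n, rfl⟩; exact hle n c⟩
  let Ψ : C →⋆ₙₐ[ℂ] lp G ⊤ :=
    { toFun := fun c => ⟨fun n => σ n c, hmem c⟩
      map_smul' := fun r c => Subtype.ext (funext fun n => map_smul (σ n) r c)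
      map_zero' := Subtype.ext (funext fun n => map_zero (σ n))
      map_add' := fun c d => Subtype.ext (funext fun n => map_add (σ n) c d)
      map_mul' := fun c d => Subtype.ext (funext fun n => map_mul (σ n) c d)
      map_star' := fun c => Subtype.ext (funext fun n => map_star (σ n) c) }
  have hΨ : ∀ c n, (Ψ c : ∀ n, G n) n = σ n c := fun _ _ => rfl
  have inj : Function.Injective Ψ := by
    refine (injective_iff_map_eq_zero Ψ).2 fun c hc => hσ c fun n => ?_
    rw [← hΨ, hc]
    rfl
  have iso := NonUnitalStarAlgHom.isometry Ψ inj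
  have nrm : ∀ c, ‖Ψ c‖ = ‖c‖ := fun c => iso.norm_map_of_map_zero (map_zero _) c
  refine ⟨fun _ => ⊤, fun n => (∀ j : Fin (n + 1), G j), fun n => inferInstance,
    fun n => { toFun := fun c j => σ j c.1
               map_one' := funext fun j => map_one (σ j)
               map_mul' := fun c d => funext fun j => map_mul (σ j) c.1 d.1
               map_zero' := funext fun j => map_zero (σ j)
               map_add' := fun c d => funext fun j => map_add (σ j) c.1 d.1
               commutes' := fun r => funext fun j => AlgHomClass.commutes (σ j) r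
               map_star' := fun c => funext fun j => map_star (σ j) c.1 },
    fun _ _ _ => le_rfl, fun _ => ?_, ?_, fun n => inferInstance, fun n => inferInstance,
    fun k c _ ε hε => ?_⟩
  · simpa using isClosed_univ
  · refine dense_univ.mono fun c _ => Set.mem_iUnion.2 ⟨0, ?_⟩
    exact StarSubalgebra.mem_top
  · have h1 : ∃ j, ‖c‖ - ε < ‖σ j c‖ := by
      by_contra hcon
      push Not at hcon
      have h2 : ‖Ψ c‖ ≤ ‖c‖ - ε := by
        rw [lp.norm_eq_ciSup]
        exact ciSup_le fun n => hcon n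
      rw [nrm] at h2
      linarith
    obtain ⟨j, hj⟩ := h1
    filter_upwards [eventually_ge_atTop j] with l hl h
    refine hj.trans_le ?_
    exact norm_le_pi_norm (fun i : Fin (l + 1) => σ i c) ⟨j, by omega⟩

/-- **Stenotic unital extensions by residually finite dimensional algebras.** Let `A` be an AF
algebra without nonzero unital quotients, `C` a nonzero unital C*-algebra.
(1) If `C` is locally RFD there is a stenotic unital extension of `A` by `C`.
(2) AF algebras are locally RFD. (3) Unital C*-algebras with a separating sequence of finite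
dimensional representations are locally RFD. -/
theorem result (A : Type) [NonUnitalCStarAlgebra A] (hA : IsAF A) (h : HasNoUnitalQuotient A)
    (C : Type) [CStarAlgebra C] [Nontrivial C] :
    (IsLocallyRFD C → HasStenoticUnitalExtension A C) ∧ (IsAF C → IsLocallyRFD C) ∧
      (IsRFD C → IsLocallyRFD C) := by
  refine ⟨fun hC => ?_, af_locallyRFD, rfd_locallyRFD⟩
  obtain ⟨S, s1, s2, s3⟩ := hA
  have : ∀ n, FiniteDimensional ℂ (S n) := fun n => by
    have := s2 n
    rw [show Submodule.span ℂ (S n : Set A) = (S n).toSubmodule from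
      Submodule.span_eq (S n).toSubmodule] at this
    exact this
  obtain ⟨T, F, i1, ρ, t1, t2, t3, i2, i3, hρ⟩ := hC
  have : ∀ n, IsClosed (T n : Set C) := t2
  obtain ⟨φ, p1, p2, p3⟩ := data h S s1 s3 F
  exact build T t1 t3 F ρ hρ φ p1 p2 p3

end Pool.Agent.Results.MP_2001a4_an.ResiduallyFiniteDimensional
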